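import Pool.Agent.helper36.PP.SpecA

/-!
# Project pp: (MP_70a088_an): module MCV, change of variables

The pieces on which `f` is injective come from the partition lemma of the area formula.
-/

set_option autoImplicit false

open Complex Metric Set Filter Topology MeasureTheory MPS MQ

noncomputable section

namespace PPS

open scoped NNReal

theorem MCV_det (A : ℂ →L[ℂ] ℂ) : (A.restrictScalars ℝ).det = ‖A 1‖ ^ 2 := by
  have h1 : (A.restrictScalars ℝ).det = LinearMap.det ((A : ℂ →ₗ[ℂ] ℂ).restrictScalars ℝ) := rfl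
  rw [h1, LinearMap.det_restrictScalars, Algebra.norm_complex_apply, LinearMap.det_ring,
    Complex.sq_norm]
  rfl

/-- the real derivative -/
def MCV_D (f : Polynomial ℂ) (y : ℂ) : ℂ →L[ℝ] ℂ :=
  (ContinuousLinearMap.toSpanSingleton ℂ (fd f y) : ℂ →L[ℂ] ℂ).restrictScalars ℝ

theorem MCV_D_apply (f : Polynomial ℂ) (y v : ℂ) : MCV_D f y v = v * fd f y := by
  show (ContinuousLinearMap.toSpanSingleton ℂ (fd f y) : ℂ →L[ℂ] ℂ) v = _
  rw [ContinuousLinearMap.toSpanSingleton_apply, smul_eq_mul]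

theorem MCV_hasD (f : Polynomial ℂ) (y : ℂ) : HasFDerivAt (fun z : ℂ => f.eval z) (MCV_D f y) y := by
  have h : HasDerivAt (fun z : ℂ => f.eval z) (fd f y) y := f.hasDerivAt y
  exact h.hasFDerivAt.restrictScalars ℝ

theorem MCV_Ddet (f : Polynomial ℂ) (y : ℂ) : (MCV_D f y).det = ‖fd f y‖ ^ 2 := by
  rw [MCV_D, MCV_det, ContinuousLinearMap.toSpanSingleton_apply, one_smul]

theorem MCV_fd_meas (f : Polynomial ℂ) : Measurable (fd f) := by
  unfold fd
  exact f.derivative.continuous.measurable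

/-- countable partition of the set where the derivative is not zero, with injectivity -/
theorem MCV_part (f : Polynomial ℂ) (hne : ({y : ℂ | fd f y ≠ 0}).Nonempty) :
    ∃ t : ℕ → Set ℂ, Pairwise (Function.onFun Disjoint t) ∧ (∀ n, MeasurableSet (t n)) ∧
      {y : ℂ | fd f y ≠ 0} ⊆ ⋃ n, t n ∧
      ∀ n, InjOn (fun y : ℂ => f.eval y) ({y : ℂ | fd f y ≠ 0} ∩ t n) := by
  classical
  obtain ⟨t, A, h1, h2, h3, h4, h5⟩ :=
    exists_partition_approximatesLinearOn_of_hasFDerivWithinAt (fun y : ℂ => f.eval y)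
      {y : ℂ | fd f y ≠ 0} (MCV_D f) (fun x _ => (MCV_hasD f x).hasFDerivWithinAt)
      (fun A => if A 1 = 0 then 1 else ‖A 1‖₊ / 2) (fun A => by
        by_cases h : A 1 = 0
        · simp [h]
        · simp [h])
  refine ⟨t, h1, h2, h3, fun n x hx y hy hxy => ?_⟩
  obtain ⟨w, hw, hA⟩ := h5 hne n
  have hw' : fd f w ≠ 0 := hw
  have hxy' : f.eval x = f.eval y := hxy
  have h6 : ‖f.eval x - f.eval y - A n (x - y)‖ ≤
      ((if A n 1 = 0 then 1 else ‖A n 1‖₊ / 2 : ℝ≥0) : ℝ) * ‖x - y‖ := h4 n x hx y hy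
  have hA1 : A n 1 = fd f w := by rw [hA, MCV_D_apply, one_mul]
  rw [if_neg (by rw [hA1]; exact hw'), hxy', sub_self, zero_sub, norm_neg, hA,
    MCV_D_apply, MCV_D_apply, one_mul, norm_mul] at h6
  have h7 : ((‖fd f w‖₊ / 2 : ℝ≥0) : ℝ) = ‖fd f w‖ / 2 := by
    rw [NNReal.coe_div, coe_nnnorm]
    rfl
  rw [h7] at h6
  have h8 : 0 < ‖fd f w‖ := norm_pos_iff.2 hw'
  have h9 : ‖x - y‖ ≤ 0 := by nlinarith [norm_nonneg (x - y)]
  exact sub_eq_zero.1 (norm_le_zero_iff.1 h9)

/-- the sum over the preimages in a set on which `f` is injective -/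
theorem MCV_sum (hPRB : PRB_stmt) (f : Polynomial ℂ) (hn : 1 ≤ f.natDegree) (φ : ℂ → ENNReal)
    (U : Set ℂ) (hU : ∀ y ∈ U, fd f y ≠ 0) (hinj : InjOn (fun y : ℂ => f.eval y) U) (x : ℂ)
    (hx : x ∈ U) : ((pre f (f.eval x)).map (U.indicator φ)).sum = φ x := by
  classical
  obtain ⟨p1, -, -, p4, -, -⟩ := hPRB f hn
  have hxm : x ∈ pre f (f.eval x) := (p1 _ _).2 rfl
  have hc : (pre f (f.eval x)).count x = 1 := p4 _ _ rfl (hU x hx)
  obtain ⟨M, hM⟩ := Multiset.exists_cons_of_mem hxm
  rw [hM, Multiset.map_cons, Multiset.sum_cons, Set.indicator_of_mem hx]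
  have h0 : (M.map (U.indicator φ)).sum = 0 := by
    apply Multiset.sum_eq_zero
    intro v hv
    obtain ⟨y, hy, rfl⟩ := Multiset.mem_map.1 hv
    apply Set.indicator_of_notMem
    intro hyU
    have hym : y ∈ pre f (f.eval x) := by
      rw [hM]
      exact Multiset.mem_cons_of_mem hy
    have hyx : y = x := hinj hyU hx ((p1 _ _).1 hym)
    rw [hM, Multiset.count_cons_self] at hc
    have : 0 < M.count x := Multiset.count_pos.2 (by rw [← hyx]; exact hy)
    omega
  rw [h0, add_zero]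

theorem MCV_zero (hPRB : PRB_stmt) (f : Polynomial ℂ) (hn : 1 ≤ f.natDegree) (φ : ℂ → ENNReal)
    (U : Set ℂ) (z : ℂ) (hz : z ∉ (fun y : ℂ => f.eval y) '' U) :
    ((pre f z).map (U.indicator φ)).sum = 0 := by
  apply Multiset.sum_eq_zero
  intro v hv
  obtain ⟨y, hy, rfl⟩ := Multiset.mem_map.1 hv
  apply Set.indicator_of_notMem
  intro hyU
  exact hz ⟨y, hyU, ((hPRB f hn).1 _ _).1 hy⟩

/-- one piece -/
theorem MCV_piece (hPRB : PRB_stmt) (f : Polynomial ℂ) (hn : 1 ≤ f.natDegree) (F : ℂ → ENNReal)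
    (K U : Set ℂ) (hK : MeasurableSet K) (hUm : MeasurableSet U) (hU : ∀ y ∈ U, fd f y ≠ 0)
    (hinj : InjOn (fun y : ℂ => f.eval y) U) :
    ∫⁻ z in K, ((pre f z).map (U.indicator fun y => F y / ENNReal.ofReal (‖fd f y‖ ^ 2))).sum =
      ∫⁻ y in {y : ℂ | f.eval y ∈ K} ∩ U, F y := by
  set φ : ℂ → ENNReal := fun y => F y / ENNReal.ofReal (‖fd f y‖ ^ 2) with hφ
  set g : ℂ → ENNReal := fun z => ((pre f z).map (U.indicator φ)).sum with hg
  have hcont : Measurable (fun y : ℂ => f.eval y) := f.continuous.measurable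
  have hKm : MeasurableSet {y : ℂ | f.eval y ∈ K} := hcont hK
  set V : Set ℂ := {y : ℂ | f.eval y ∈ K} ∩ U with hV
  have hVm : MeasurableSet V := hKm.inter hUm
  have himg : (fun y : ℂ => f.eval y) '' V = K ∩ (fun y : ℂ => f.eval y) '' U := by
    ext z
    constructor
    · rintro ⟨y, ⟨h1, h2⟩, rfl⟩
      exact ⟨h1, y, h2, rfl⟩
    · rintro ⟨h1, y, h2, rfl⟩
      exact ⟨y, ⟨h1, h2⟩, rfl⟩
  have himgm : MeasurableSet ((fun y : ℂ => f.eval y) '' V) :=
    hVm.image_of_measurable_injOn hcont (hinj.mono inter_subset_right)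
  have h1 : ∫⁻ z in K, g z = ∫⁻ z in (fun y : ℂ => f.eval y) '' V, g z := by
    rw [← lintegral_indicator hK, ← lintegral_indicator himgm]
    congr 1
    funext z
    by_cases hz : z ∈ (fun y : ℂ => f.eval y) '' V
    · rw [Set.indicator_of_mem hz, Set.indicator_of_mem (himg ▸ hz).1]
    · rw [Set.indicator_of_notMem hz]
      by_cases hzK : z ∈ K
      · rw [Set.indicator_of_mem hzK]
        apply MCV_zero hPRB f hn
        intro hzU
        exact hz (himg ▸ ⟨hzK, hzU⟩)
      · rw [Set.indicator_of_notMem hzK]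
  rw [h1, lintegral_image_eq_lintegral_abs_det_fderiv_mul volume hVm
    (fun x _ => (MCV_hasD f x).hasFDerivWithinAt) (hinj.mono inter_subset_right)]
  apply setLIntegral_congr_fun hVm
  intro x hx
  have h2 : g (f.eval x) = φ x := MCV_sum hPRB f hn φ U hU hinj x hx.2
  have h3 : 0 < ‖fd f x‖ ^ 2 := pow_pos (norm_pos_iff.2 (hU x hx.2)) 2
  simp only
  rw [h2, MCV_Ddet, abs_of_nonneg (by positivity), hφ]
  exact ENNReal.mul_div_cancel (by rw [Ne, ENNReal.ofReal_eq_zero, not_le]; exact h3)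
    ENNReal.ofReal_ne_top

/-- exchange of the sum over a multiset with a countable sum -/
theorem MCV_tsum (M : Multiset ℂ) (ψ : ℕ → ℂ → ENNReal) :
    ∑' j, (M.map (ψ j)).sum = (M.map fun y => ∑' j, ψ j y).sum := by
  induction M using Multiset.induction_on with
  | empty => simp
  | cons y M ih =>
    simp only [Multiset.map_cons, Multiset.sum_cons]
    rw [ENNReal.tsum_add, ih]

theorem MCV (hPRB : PRB_stmt) (hMS : MS_stmt) : MCV_stmt := by
  intro f hn F K hF hK
  have hcont : Measurable (fun y : ℂ => f.eval y) := f.continuous.measurable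
  have hder : f.derivative ≠ 0 := by
    intro h
    have := Polynomial.derivative_eq_zero.1 h
    omega
  have hfin : ({y : ℂ | fd f y = 0}).Finite := by
    refine (f.derivative.roots.toFinset.finite_toSet).subset ?_
    intro y hy
    simp only [Finset.mem_coe, Multiset.mem_toFinset]
    exact (Polynomial.mem_roots hder).2 hy
  have hnull : volume {y : ℂ | fd f y = 0} = 0 := hfin.measure_zero _
  have hne : ({y : ℂ | fd f y ≠ 0}).Nonempty := by
    by_contra h
    rw [Set.not_nonempty_iff_eq_empty] at h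
    have h2 : {y : ℂ | fd f y = 0} = univ := by
      ext y
      simp only [mem_univ, iff_true]
      by_contra hy
      have : y ∈ ({y : ℂ | fd f y ≠ 0} : Set ℂ) := hy
      rw [h] at this
      exact this
    rw [h2] at hfin
    exact Set.infinite_univ hfin
  obtain ⟨t, t1, t2, t3, t4⟩ := MCV_part f hne
  set s : Set ℂ := {y : ℂ | fd f y ≠ 0} with hs
  have hsm : MeasurableSet s := (measurableSet_eq_fun (MCV_fd_meas f) measurable_const).compl
  set φ : ℂ → ENNReal := fun y => F y / ENNReal.ofReal (‖fd f y‖ ^ 2) with hφ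
  have hφm : Measurable φ := hF.div (((MCV_fd_meas f).norm.pow_const 2).ennreal_ofReal)
  let U : ℕ → Set ℂ := fun j => s ∩ t j
  have hUm : ∀ j, MeasurableSet (U j) := fun j => hsm.inter (t2 j)
  have hUd : Pairwise (Function.onFun Disjoint U) := fun i j hij =>
    (t1 hij).mono inter_subset_right inter_subset_right
  have hUu : ⋃ j, U j = s := by
    rw [← inter_iUnion]
    exact inter_eq_left.2 t3
  have hpart : ∀ y, ∑' j, (U j).indicator φ y = s.indicator φ y := by
    intro y
    by_cases hy : y ∈ s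
    · rw [← hUu] at hy
      obtain ⟨i, hi⟩ := mem_iUnion.1 hy
      rw [tsum_eq_single i (fun j hj => Set.indicator_of_notMem
        (fun h => (Set.disjoint_left.1 (hUd hj)) h hi) _), Set.indicator_of_mem hi, ← hUu,
        Set.indicator_of_mem hy]
    · rw [Set.indicator_of_notMem hy]
      have : ∀ j, (U j).indicator φ y = 0 := fun j =>
        Set.indicator_of_notMem (fun h => hy h.1) _
      simp [this]
  -- the left-hand side
  have hL : ∫⁻ z in K, ((pre f z).map φ).sum =
      ∫⁻ z in K, ∑' j, ((pre f z).map ((U j).indicator φ)).sum := by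
    apply lintegral_congr_ae
    have hCV : volume (CV f) = 0 := (hPRB f hn).2.2.2.2.1.measure_zero _
    have hCV' : ∀ᵐ z ∂((volume : Measure ℂ).restrict K), z ∉ CV f :=
      ae_restrict_of_ae (measure_eq_zero_iff_ae_notMem.1 hCV)
    filter_upwards [hCV'] with z hz
    rw [MCV_tsum]
    congr 1
    apply Multiset.map_congr rfl
    intro y hy
    rw [hpart]
    have hys : y ∈ s := by
      intro h0
      exact hz ⟨y, h0, ((hPRB f hn).1 _ _).1 hy⟩
    rw [Set.indicator_of_mem hys]
  rw [hL, lintegral_tsum]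
  · have h1 : ∀ j, ∫⁻ z in K, ((pre f z).map ((U j).indicator φ)).sum =
        ∫⁻ y in {y : ℂ | f.eval y ∈ K} ∩ U j, F y := fun j =>
      MCV_piece hPRB f hn F K (U j) hK (hUm j) (fun y hy => hy.1) (t4 j)
    rw [tsum_congr h1]
    have hKm : MeasurableSet {y : ℂ | f.eval y ∈ K} := hcont hK
    rw [← lintegral_iUnion (fun j => hKm.inter (hUm j))
      (fun i j hij => (hUd hij).mono inter_subset_right inter_subset_right), ← inter_iUnion, hUu]
    apply setLIntegral_congr
    have h2 : ∀ᵐ y : ℂ, y ∉ {y : ℂ | fd f y = 0} := measure_eq_zero_iff_ae_notMem.1 hnull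
    filter_upwards [h2] with y hy
    apply propext
    exact ⟨fun h => h.1, fun h => ⟨h, hy⟩⟩
  · intro j
    exact ((hMS f hn).1 _ (hφm.indicator (hUm j))).aemeasurable.restrict

end PPS
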