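import Pool.Agent.helper36.PP.SpecM

set_option autoImplicit false

open Complex Metric Set Filter Topology MeasureTheory MPS MQ Pool.Agent.helper98.ILF

noncomputable section

namespace PPS

theorem ATF_ch (a b : ℂ) : chordal a b ≤ ‖a - b‖ := by
  unfold chordal
  have h1 : (1 : ℝ) ≤ Real.sqrt (1 + ‖a‖ ^ 2) := by
    rw [Real.one_le_sqrt]; nlinarith [sq_nonneg ‖a‖]
  have h2 : (1 : ℝ) ≤ Real.sqrt (1 + ‖b‖ ^ 2) := by
    rw [Real.one_le_sqrt]; nlinarith [sq_nonneg ‖b‖]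
  have h3 : (1 : ℝ) ≤ Real.sqrt (1 + ‖a‖ ^ 2) * Real.sqrt (1 + ‖b‖ ^ 2) := by nlinarith
  exact div_le_self (norm_nonneg _) h3

theorem ATF_cont (f : Polynomial ℂ) (m : ℕ) : Continuous (it f m) := by
  unfold it
  exact (f.continuous).iterate m

theorem ATF_eq (f : Polynomial ℂ) (p : ℂ) (δ : ℝ)
    (H : ∀ ε > (0 : ℝ), ∃ M : ℕ, ∀ m, M ≤ m → ∀ z : ℂ, ‖z - p‖ < δ → ‖it f m z - it f m p‖ < ε)
    (z : ℂ) (hz : ‖z - p‖ < δ) : EquicontAt (fun z : ℂ => f.eval z) z := by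
  intro ε hε
  obtain ⟨M, hM⟩ := H (ε / 2) (by linarith)
  have hfin : ∀ᶠ w in 𝓝 z, ∀ m ∈ Finset.range M, ‖it f m w - it f m z‖ < ε := by
    rw [Filter.eventually_all_finset]
    intro m _
    have h1 := (ATF_cont f m).continuousAt (x := z)
    rw [Metric.continuousAt_iff'] at h1
    filter_upwards [h1 ε hε] with w hw
    rwa [dist_eq_norm] at hw
  have hball : ∀ᶠ w in 𝓝 z, ‖w - p‖ < δ := by
    have hc : Continuous fun w : ℂ => ‖w - p‖ := by fun_prop
    exact hc.continuousAt.eventually_lt continuousAt_const hz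
  obtain ⟨δ', hδ', hb⟩ := Metric.eventually_nhds_iff.1 (hfin.and hball)
  refine ⟨δ', hδ', fun w hw k => ?_⟩
  have h0 := hb (y := w) (by rwa [dist_eq_norm])
  have hk : ‖it f k w - it f k z‖ < ε := by
    by_cases hkM : k < M
    · exact h0.1 k (Finset.mem_range.2 hkM)
    · have a1 := hM k (not_lt.1 hkM) w h0.2
      have a2 := hM k (not_lt.1 hkM) z hz
      calc ‖it f k w - it f k z‖ = ‖(it f k w - it f k p) - (it f k z - it f k p)‖ := by
            congr 1; ring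
        _ ≤ ‖it f k w - it f k p‖ + ‖it f k z - it f k p‖ := norm_sub_le _ _
        _ < ε := by linarith
  exact lt_of_le_of_lt (ATF_ch _ _) hk

theorem ATF (hTRA : TRA_stmt) : ATF_stmt := by
  intro f p hp
  obtain ⟨δ, hδ, H⟩ := (hTRA f p hp).2
  refine ⟨δ, hδ, fun z hz hJ => ?_⟩
  apply hJ
  unfold fatouSet
  rw [mem_interior]
  refine ⟨ball p δ, ?_, isOpen_ball, ?_⟩
  · intro y hy
    exact ATF_eq f p δ H y (by rwa [mem_ball, dist_eq_norm] at hy)
  · rw [mem_ball, dist_eq_norm]; exact hz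

end PPS
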