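import Pool.Agent.helper36.PP.SpecL

/-!
# Project pp: (MP_70a088_an): module NB, preimages avoid null sets
-/

set_option autoImplicit false

open Complex Metric Set Filter Topology MeasureTheory MPS MQ Pool.Agent.helper98.ILF

noncomputable section

namespace PPS

theorem NB (hMS : MS_stmt) (hMCV : MCV_stmt) : NB_stmt := by
  intro f hn N hN
  set N' : Set ℂ := toMeasurable volume N with hN'
  have hmN' : MeasurableSet N' := measurableSet_toMeasurable _ _
  have hvN' : volume N' = 0 := by rw [hN', measure_toMeasurable, hN]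
  let F : ℂ → ENNReal := N'.indicator (fun _ => 1)
  have hF : Measurable F := measurable_const.indicator hmN'
  have h := hMCV f hn F univ hF MeasurableSet.univ
  have h0 : ∫⁻ y in {y : ℂ | f.eval y ∈ (univ : Set ℂ)}, F y = 0 := by
    have e : {y : ℂ | f.eval y ∈ (univ : Set ℂ)} = univ := by simp
    rw [e, Measure.restrict_univ, lintegral_indicator hmN', setLIntegral_one, hvN']
  rw [h0, Measure.restrict_univ] at h
  have hfd : Measurable (fd f) := by
    unfold fd
    exact f.derivative.continuous.measurable
  have hφ : Measurable (fun y => F y / ENNReal.ofReal (‖fd f y‖ ^ 2)) :=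
    hF.div ((hfd.norm.pow_const 2).ennreal_ofReal)
  have hmeas := (hMS f hn).1 _ hφ
  rw [lintegral_eq_zero_iff hmeas] at h
  filter_upwards [h] with z hz y hy hmem
  have hz' : ((pre f z).map fun y => F y / ENNReal.ofReal (‖fd f y‖ ^ 2)).sum = 0 := hz
  have h1 : F y / ENNReal.ofReal (‖fd f y‖ ^ 2) = 0 := by
    have h2 := Multiset.single_le_sum (s := (pre f z).map fun y => F y /
      ENNReal.ofReal (‖fd f y‖ ^ 2)) (fun _ _ => zero_le) _ (Multiset.mem_map_of_mem _ hy)
    rw [hz'] at h2
    exact le_antisymm h2 zero_le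
  rcases ENNReal.div_eq_zero_iff.1 h1 with h2 | h2
  · have hm : y ∈ N' := subset_toMeasurable _ _ hmem
    have : F y = 1 := Set.indicator_of_mem hm _
    rw [this] at h2
    exact one_ne_zero h2
  · exact ENNReal.ofReal_ne_top h2

end PPS
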