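import Pool.Agent.helper25.PP.Spec

set_option autoImplicit false

namespace PP

open Finset SimpleGraph CT

theorem CH2_prodA (s t : ℕ) (_hst : s ≤ t) :
    ∏ i ∈ range s, (2 * (2 * s - i) * (2 * t - i)) = (2 * s).factorial * (2 ^ s * (2 * t).choose s) := by
  have h1 : ∏ i ∈ range s, (2 * (2 * s - i) * (2 * t - i)) =
      2 ^ s * (∏ i ∈ range s, (2 * s - i)) * ∏ i ∈ range s, (2 * t - i) := by
    rw [Finset.prod_mul_distrib, Finset.prod_mul_distrib, Finset.prod_const, Finset.card_range]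
  rw [h1, ← Nat.descFactorial_eq_prod_range, ← Nat.descFactorial_eq_prod_range,
    Nat.descFactorial_eq_factorial_mul_choose (2 * t) s]
  have h2 := Nat.factorial_mul_descFactorial (n := 2 * s) (k := s) (by omega)
  have h3 : 2 * s - s = s := by omega
  rw [h3] at h2
  rw [← h2]
  ring

theorem CH2_prodB (s : ℕ) : ∏ i ∈ range s, ((2 * i + 2) * (2 * i + 1)) = (2 * s).factorial := by
  induction s with
  | zero => simp
  | succ s ih =>
    rw [Finset.prod_range_succ, ih]
    have : 2 * (s + 1) = (2 * s + 1) + 1 := by ring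
    rw [this, Nat.factorial_succ, Nat.factorial_succ]
    ring

theorem CH2_down (x a b : ℕ → ℕ) (s : ℕ) (h : ∀ i, i < s → a i * x i ≤ b i * x (i + 1)) :
    ∀ d j, j + d = s → x j * ∏ i ∈ Ico j s, a i ≤ x s * ∏ i ∈ Ico j s, b i := by
  intro d
  induction d with
  | zero =>
    intro j hj
    have : j = s := by omega
    subst this
    simp
  | succ d ih =>
    intro j hj
    have hjs : j < s := by omega
    have ih' := ih (j + 1) (by omega)
    rw [Finset.prod_eq_prod_Ico_succ_bot hjs, Finset.prod_eq_prod_Ico_succ_bot hjs]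
    calc x j * (a j * ∏ i ∈ Ico (j + 1) s, a i) = (a j * x j) * ∏ i ∈ Ico (j + 1) s, a i := by ring
      _ ≤ (b j * x (j + 1)) * ∏ i ∈ Ico (j + 1) s, a i := Nat.mul_le_mul_right _ (h j hjs)
      _ = b j * (x (j + 1) * ∏ i ∈ Ico (j + 1) s, a i) := by ring
      _ ≤ b j * (x s * ∏ i ∈ Ico (j + 1) s, b i) := Nat.mul_le_mul_left _ ih'
      _ = x s * (b j * ∏ i ∈ Ico (j + 1) s, b i) := by ring

theorem CH2 (h : CH1_stmt) : CH2_stmt := by
  intro V _ _ S j hST hT hj6 hjS
  set s := S.card with hs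
  set t := Sᶜ.card with ht
  have hn : Fintype.card V = s + t := by
    rw [hs, ht, Finset.card_add_card_compl]
  let x : ℕ → ℕ := fun i => cc fun G : SimpleGraph V => dout G S = 2 * i
  let a : ℕ → ℕ := fun i => 2 * (2 * s - i) * (2 * t - i)
  let b : ℕ → ℕ := fun i => (2 * i + 2) * (2 * i + 1)
  have hstep : ∀ i, i < s → a i * x i ≤ b i * x (i + 1) := by
    intro i hi
    have h1 := h V S (2 * i)
    rw [← hs, ← ht] at h1
    have e1 : (cc fun G : SimpleGraph V => dout G S = 2 * i) = x i := rfl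
    have e2 : (cc fun G : SimpleGraph V => dout G S = 2 * i + 2) = x (i + 1) := rfl
    rw [e1, e2] at h1
    have hi2 : (i : ℤ) < s := by exact_mod_cast hi
    have hst2 : (s : ℤ) ≤ t := by exact_mod_cast hST
    have ht2 : (18 : ℤ) ≤ t := by exact_mod_cast hT
    have hi0 : (0 : ℤ) ≤ i := by positivity
    have c1 : ((2 * s - i : ℕ) : ℤ) = 2 * s - i := by
      rw [Nat.cast_sub (by omega)]; push_cast; ring
    have c2 : ((2 * t - i : ℕ) : ℤ) = 2 * t - i := by
      rw [Nat.cast_sub (by omega)]; push_cast; ring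
    have key : (2 : ℤ) * (2 * s - i) * (2 * t - i) ≤
        (4 * (s : ℤ) - (2 * i : ℕ)) * (4 * t - (2 * i : ℕ)) - 18 * (2 * i : ℕ) := by
      push_cast
      have h5 : (i : ℤ) * 18 ≤ (2 * s - i) * (2 * t - i) := by
        have h6 : (i : ℤ) ≤ 2 * s - i := by linarith
        have h7 : (18 : ℤ) ≤ 2 * t - i := by linarith
        exact mul_le_mul h6 h7 (by norm_num) (by linarith)
      nlinarith
    have hx : (0 : ℤ) ≤ x i := by positivity
    have h2 : (2 : ℤ) * (2 * s - i) * (2 * t - i) * x i ≤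
        (((2 * i : ℕ) : ℤ) + 2) * (((2 * i : ℕ) : ℤ) + 1) * (x (i + 1) : ℕ) :=
      le_trans (mul_le_mul_of_nonneg_right key hx) h1
    have h3 : ((a i * x i : ℕ) : ℤ) ≤ ((b i * x (i + 1) : ℕ) : ℤ) := by
      have e3 : ((a i * x i : ℕ) : ℤ) = (2 : ℤ) * (2 * s - i) * (2 * t - i) * x i := by
        simp only [a, Nat.cast_mul, c1, c2]
        push_cast
        ring
      have e4 : ((b i * x (i + 1) : ℕ) : ℤ) =
          (((2 * i : ℕ) : ℤ) + 2) * (((2 * i : ℕ) : ℤ) + 1) * (x (i + 1) : ℕ) := by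
        simp only [b]
        push_cast
        ring
      rw [e3, e4]
      exact h2
    exact_mod_cast h3
  have hdown := CH2_down x a b s hstep (s - j) j (by omega)
  have hsplitA : ∏ i ∈ range s, a i = (∏ i ∈ range j, a i) * ∏ i ∈ Ico j s, a i :=
    (Finset.prod_range_mul_prod_Ico a hjS).symm
  have hsplitB : ∏ i ∈ range s, b i = (∏ i ∈ range j, b i) * ∏ i ∈ Ico j s, b i :=
    (Finset.prod_range_mul_prod_Ico b hjS).symm
  have hn1 : 1 ≤ 2 * Fintype.card V ^ 2 := by
    have : 1 ≤ Fintype.card V := by omega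
    have := Nat.one_le_pow 2 _ this
    omega
  have hAj : ∏ i ∈ range j, a i ≤ (2 * Fintype.card V ^ 2) ^ 6 := by
    have h1 : ∏ i ∈ range j, a i ≤ ∏ _i ∈ range j, (2 * Fintype.card V ^ 2) := by
      refine Finset.prod_le_prod' ?_
      intro i _
      have h2 : a i ≤ 2 * (2 * s) * (2 * t) := by
        simp only [a]
        exact Nat.mul_le_mul (Nat.mul_le_mul_left _ (Nat.sub_le _ _)) (Nat.sub_le _ _)
      refine le_trans h2 ?_
      rw [hn]
      nlinarith [sq_nonneg ((s : ℤ) - t), Nat.le_total s t, mul_self_nonneg ((t - s : ℕ)),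
        Nat.sub_add_cancel hST]
    refine le_trans h1 ?_
    rw [Finset.prod_const, Finset.card_range]
    exact Nat.pow_le_pow_right hn1 hj6
  have hBj : 1 ≤ ∏ i ∈ range j, b i := by
    refine Nat.one_le_iff_ne_zero.2 (Finset.prod_ne_zero_iff.2 ?_)
    intro i _
    simp only [b]
    positivity
  have hxs : x s ≤ cc fun _ : SimpleGraph V => True := by
    refine Finset.card_le_card ?_
    intro G hG
    rw [mem_cc] at hG ⊢
    exact ⟨hG.1, trivial⟩
  have hA : ∏ i ∈ range s, a i = (2 * s).factorial * (2 ^ s * (2 * t).choose s) := CH2_prodA s t hST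
  have hB : ∏ i ∈ range s, b i = (2 * s).factorial := CH2_prodB s
  have main : (2 * s).factorial * (2 ^ s * (2 * t).choose s * x j) ≤
      (2 * s).factorial * ((2 * Fintype.card V ^ 2) ^ 6 * cc fun _ : SimpleGraph V => True) := by
    calc (2 * s).factorial * (2 ^ s * (2 * t).choose s * x j)
        = x j * ∏ i ∈ range s, a i := by rw [hA]; ring
      _ = (∏ i ∈ range j, a i) * (x j * ∏ i ∈ Ico j s, a i) := by rw [hsplitA]; ring
      _ ≤ (∏ i ∈ range j, a i) * (x s * ∏ i ∈ Ico j s, b i) := Nat.mul_le_mul_left _ hdown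
      _ ≤ (2 * Fintype.card V ^ 2) ^ 6 * (x s * ∏ i ∈ Ico j s, b i) := Nat.mul_le_mul_right _ hAj
      _ ≤ (2 * Fintype.card V ^ 2) ^ 6 * (x s * ∏ i ∈ range s, b i) := by
          refine Nat.mul_le_mul_left _ (Nat.mul_le_mul_left _ ?_)
          rw [hsplitB]
          exact Nat.le_mul_of_pos_left _ hBj
      _ = (2 * s).factorial * ((2 * Fintype.card V ^ 2) ^ 6 * x s) := by rw [hB]; ring
      _ ≤ _ := Nat.mul_le_mul_left _ (Nat.mul_le_mul_left _ hxs)
  exact Nat.le_of_mul_le_mul_left main (Nat.factorial_pos _)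

end PP
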